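import Pool.Agent.Helper98.UN.CE4
import Pool.Agent.Helper44.UN.CE3
import Pool.Agent.Helper7.UN.CE2
import Pool.Agent.Helper55.UN.CR3

/-!
Orthogonal (type III) theorem, block CX: combinatorics of simply laced systems.
-/

open Module

namespace OR

open UN

section comb

variable {K : Type*} [Field K] [CharZero K] {M : Type*} [AddCommGroup M] [Module K M]
  {B : LinearMap.BilinForm K M} {s : M →ₗ[K] K} {c : K} {Φ X : Finset M}

namespace CX

/-- two different weights of `β` take opposite values on `g₀` -/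
theorem opp (h : USL B s c Φ X) {β g₀ : M} (hβ : β ∈ Φ)
    (hu : ∀ g ∈ Φ, B β g = 0 → (∃ x ∈ X, B x β = 1 ∧ B x g ≠ 0) → g = g₀ ∨ g = -g₀)
    {x y : M} (hx : x ∈ X) (hy : y ∈ X) (hxy : x ≠ y) (hxβ : B x β = 1) (hyβ : B y β = 1) :
    (B x g₀ = 1 ∧ B y g₀ = -1) ∨ (B x g₀ = -1 ∧ B y g₀ = 1) := by
  obtain ⟨g, hg, hβg, h1, h2⟩ := CE3.sep0 h hβ hx hy hxy hxβ hyβ
  rcases hu g hg hβg ⟨x, hx, hxβ, by rw [h1]; exact one_ne_zero⟩ with h3 | h3
  · left
    rw [← h3]
    exact ⟨h1, h2⟩
  · right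
    rw [h3, map_neg] at h1 h2
    exact ⟨by rw [← h1, neg_neg], by rw [← neg_neg (B y g₀), h2, neg_neg]⟩

omit [CharZero K] in
/-- existence of two different weights -/
theorem exists_two (F : Finset M) (h : 2 ≤ F.card) (x : M) : ∃ y ∈ F, y ≠ x := by
  classical
  by_contra hcon
  push Not at hcon
  have h1 : F ⊆ {x} := fun y hy => Finset.mem_singleton.2 (hcon y hy)
  have h2 := Finset.card_le_card h1
  rw [Finset.card_singleton] at h2
  omega

omit [CharZero K] in
open Classical in
theorem card_neg_le (h : USL B s c Φ X) {a : M} (ha : a ∈ Φ) :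
    (X.filter (fun x => B x a = 1)).card ≤ (X.filter (fun x => B x (-a) = 1)).card := by
  refine Finset.card_le_card_of_injOn (fun x => x - a) ?_ ?_
  · intro x hx
    rw [Finset.mem_coe, Finset.mem_filter] at hx
    rw [Finset.mem_coe, Finset.mem_filter]
    refine ⟨h.xsub x hx.1 a ha hx.2, ?_⟩
    rw [map_neg, map_sub, LinearMap.sub_apply, hx.2, h.two a ha]
    norm_num
  · intro x _ y _ hxy
    exact sub_left_injective hxy

omit [CharZero K] in
open Classical in
theorem card_neg (h : USL B s c Φ X) {a : M} (ha : a ∈ Φ) :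
    (X.filter (fun x => B x (-a) = 1)).card = (X.filter (fun x => B x a = 1)).card := by
  refine le_antisymm ?_ (card_neg_le h ha)
  have := card_neg_le h (h.neg a ha)
  rwa [neg_neg] at this

/-- every root is equivalent to a root of value one -/
theorem card_to_one (h : USL B s c Φ X) {g : M} (hg : g ∈ Φ) : open Classical in
    ∃ b ∈ Φ, s b = 1 ∧ (X.filter (fun x => B x g = 1)).card =
      (X.filter (fun x => B x b = 1)).card := by
  classical
  rcases UN.CR2.vals h hg with h2 | h2 | h2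
  · refine ⟨-g, h.neg g hg, by rw [map_neg, h2, neg_neg], ?_⟩
    exact (card_neg h hg).symm
  · have hg0 : g ≠ 0 := UN.CR2.ne_zero h hg
    obtain ⟨b, hb, hsb, hgb⟩ : ∃ b ∈ Φ, s b = 1 ∧ B g b ≠ 0 := by
      by_contra! hcon
      exact hg0 (h.hit g hcon)
    refine ⟨b, hb, hsb, ?_⟩
    have hne : g ≠ b := by
      rintro rfl
      rw [h2] at hsb
      exact zero_ne_one hsb
    have hne' : g ≠ -b := by
      rintro rfl
      rw [map_neg, hsb] at h2
      norm_num at h2
    rcases h.pair g hg b hb hne hne' with h3 | h3 | h3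
    · have h4 : B (-g) b = 1 := by
        rw [map_neg, LinearMap.neg_apply, h3, neg_neg]
      rw [← card_neg h hg, UN.CR2.card_eq h (h.neg g hg) hb h4]
    · exact absurd h3 hgb
    · rw [UN.CR2.card_eq h hg hb h3]
  · exact ⟨g, hg, h2, rfl⟩

end CX

open Classical in
/-- CP: the second alternative of `USL.dich` (Helper7/UN/CE2): two weights. -/
theorem pair_two (h : USL B s c Φ X) {α β g₀ : M} (hα : α ∈ Φ) (hβ : β ∈ Φ)
    (hsα : s α = 1) (hsβ : s β = 1) (hαβ : B β α = 0)
    (hr : ∃ x ∈ X, ∃ y ∈ X, x ≠ y ∧ B x β = 1 ∧ B y β = 1) (hg₀ : g₀ ∈ Φ) (hβg : B β g₀ = 0)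
    (hu : ∀ g ∈ Φ, B β g = 0 → (∃ x ∈ X, B x β = 1 ∧ B x g ≠ 0) → g = g₀ ∨ g = -g₀) :
    (X.filter (fun x => B x β = 1)).card = 2 := by
  obtain ⟨x, hx, y, hy, hxy, hxβ, hyβ⟩ := hr
  have h2 : X.filter (fun x => B x β = 1) = {x, y} := by
    ext z
    rw [Finset.mem_filter, Finset.mem_insert, Finset.mem_singleton]
    constructor
    · rintro ⟨hz, hzβ⟩
      by_contra hcon
      push Not at hcon
      have o1 := CX.opp h hβ hu hx hy hxy hxβ hyβ
      have o2 := CX.opp h hβ hu hz hx hcon.1 hzβ hxβ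
      have o3 := CX.opp h hβ hu hz hy hcon.2 hzβ hyβ
      have hne : (1 : K) ≠ -1 := by
        intro h3
        have : (2 : K) = 0 := by linear_combination h3
        exact two_ne_zero this
      rcases o1 with ⟨a1, a2⟩ | ⟨a1, a2⟩ <;> rcases o2 with ⟨b1, b2⟩ | ⟨b1, b2⟩ <;>
        rcases o3 with ⟨c1, c2⟩ | ⟨c1, c2⟩ <;>
        first
          | exact hne (a1.symm.trans b2)
          | exact hne (b2.symm.trans a1)
          | exact hne (a2.symm.trans c2)
          | exact hne (c2.symm.trans a2)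
          | exact hne (b1.symm.trans c1)
          | exact hne (c1.symm.trans b1)
    · rintro (rfl | rfl)
      · exact ⟨hx, hxβ⟩
      · exact ⟨hy, hyβ⟩
  rw [h2, Finset.card_pair hxy]

open Classical in
/-- CC: the number of weights with value one is the same for all roots. -/
theorem card_const (h : USL B s c Φ X) {a b : M} (ha : a ∈ Φ) (hb : b ∈ Φ) :
    (X.filter (fun x => B x a = 1)).card = (X.filter (fun x => B x b = 1)).card := by
  obtain ⟨a', ha', hsa', e1⟩ := CX.card_to_one h ha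
  obtain ⟨b', hb', hsb', e2⟩ := CX.card_to_one h hb
  have h1 := h.conn {b | (X.filter (fun x => B x b = 1)).card =
    (X.filter (fun x => B x a' = 1)).card} ⟨a', ha', hsa', rfl⟩ (by
    intro p hp q hq _ _ hpq hD
    show (X.filter (fun x => B x q = 1)).card = (X.filter (fun x => B x a' = 1)).card
    rw [← UN.CR2.card_eq h hp hq hpq]
    exact hD) b' hb' hsb'
  have h2 : (X.filter (fun x => B x b' = 1)).card = (X.filter (fun x => B x a' = 1)).card := h1
  rw [e1, e2, h2]

open Classical in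
/-- CD: if the number is two, differences of weights are roots. -/
theorem sub_root (h : USL B s c Φ X) (hneg : ∀ x ∈ X, -x ∈ X)
    (h2 : ∀ a ∈ Φ, (X.filter (fun x => B x a = 1)).card = 2) {x y : M} (hx : x ∈ X)
    (hy : y ∈ X) (hxy : x ≠ y) (hxy' : x ≠ -y) : x - y ∈ Φ := by
  obtain ⟨g, hg, hxg, hyg⟩ := h.sep x hx y hy hxy
  have hyg' : B (-y) g = 1 := by rw [map_neg, LinearMap.neg_apply, hyg, neg_neg]
  have hset : ({x, -y} : Finset M) = X.filter (fun x => B x g = 1) := by
    apply Finset.eq_of_subset_of_card_le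
    · intro z hz
      rw [Finset.mem_insert, Finset.mem_singleton] at hz
      rw [Finset.mem_filter]
      rcases hz with rfl | rfl
      · exact ⟨hx, hxg⟩
      · exact ⟨hneg y hy, hyg'⟩
    · rw [h2 g hg, Finset.card_pair hxy']
  -- the involution of the weights of `g`
  have key : ∀ z ∈ X, B z g = 1 → g - z = x ∨ g - z = -y := by
    intro z hz hzg
    have h3 : -(z - g) ∈ X := hneg _ (h.xsub z hz g hg hzg)
    have h4 : B (-(z - g)) g = 1 := by
      rw [map_neg, LinearMap.neg_apply, map_sub, LinearMap.sub_apply, hzg, h.two g hg]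
      norm_num
    have h5 : -(z - g) ∈ ({x, -y} : Finset M) := by
      rw [hset, Finset.mem_filter]
      exact ⟨h3, h4⟩
    rw [Finset.mem_insert, Finset.mem_singleton, neg_sub] at h5
    exact h5
  rcases key x hx hxg with h3 | h3
  · -- `g = 2 x`
    exfalso
    rcases key (-y) (hneg y hy) hyg' with h4 | h4
    · apply hxy'
      have h5 : g = x + x := by rw [← sub_add_cancel g x, h3]
      rw [h5, sub_neg_eq_add, add_assoc] at h4
      have h6 : x + y = 0 := by simpa using h4
      exact eq_neg_of_add_eq_zero_left h6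
    · apply hxy'
      have h5 : g = x + x := by rw [← sub_add_cancel g x, h3]
      have h6 : g = -y + -y := by rw [← sub_add_cancel g (-y), h4]
      rw [h5, ← two_smul K, ← two_smul K (-y)] at h6
      exact smul_right_injective M (two_ne_zero (α := K)) h6
  · have h4 : x - y = g := by
      rw [sub_eq_iff_eq_add] at h3
      rw [h3]
      abel
    rw [h4]
    exact hg

namespace CX

/-- if all roots of value one are adjacent -/
theorem nontriv_adj (h : USL B s c Φ X)
    (hadj : ∀ a ∈ Φ, ∀ b ∈ Φ, s a = 1 → s b = 1 → a ≠ b → B a b = 1)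
    {β g : M} (hβ : β ∈ Φ) (hsβ : s β = 1) {z₀ z₁ : M} (hz₀ : z₀ ∈ X) (hz₁ : z₁ ∈ X)
    (hz : z₀ ≠ z₁) (hz₀β : B z₀ β = 1) (hz₁β : B z₁ β = 1) (hg : g ∈ Φ) (sg : s g = 0)
    (hβg : B β g = 0) (hcon : ∀ z ∈ X, B z β = 1 → B z g = 0) : False := by
  have n1 : (-1 : K) ≠ 0 := neg_ne_zero.2 one_ne_zero
  obtain ⟨a, ha, b, hb, hsa, hsb, hab, rfl⟩ := h.zero_form hg sg
  have hBab := hadj a ha b hb hsa hsb hab
  have hBba : B b a = 1 := by rw [h.symm, hBab]
  have haβ : a ≠ β := by
    rintro rfl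
    rw [map_sub, h.two a ha, hBab] at hβg
    exact one_ne_zero (α := K) (by linear_combination hβg)
  have hbβ : b ≠ β := by
    rintro rfl
    rw [map_sub, h.two b hb, hBba] at hβg
    exact one_ne_zero (α := K) (by linear_combination -hβg)
  have hBaβ := hadj a ha β hβ hsa hsβ haβ
  have hBbβ := hadj b hb β hβ hsb hsβ hbβ
  have s0 := (UN.CR2.f1' h hz₀ hβ hsβ hz₀β).1
  have s1 := (UN.CR2.f1' h hz₁ hβ hsβ hz₁β).1
  obtain ⟨g', hg', hz₀g', hz₁g'⟩ := h.sep z₀ hz₀ z₁ hz₁ hz
  have two_ne : (2 : K) ≠ 0 := two_ne_zero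
  have e0 := hcon z₀ hz₀ hz₀β
  rw [map_sub] at e0
  rcases UN.CR2.f1 h hz₀ s0 ha hsa with v | v
  · -- both values are zero
    rw [v, zero_sub, neg_eq_zero] at e0
    have hex : ∃ e ∈ Φ, s e = 1 ∧ e ≠ β ∧ B z₀ e = 1 := by
      rcases h.root_cases hg' with h1 | ⟨p, hp, hsp, rfl⟩ | ⟨p, hp, q, hq, hsp, hsq, hpq, rfl⟩
      · exfalso
        rcases UN.CR2.f1 h hz₁ s1 hg' h1 with h2 | h2 <;> rw [hz₁g'] at h2
        · exact n1 h2
        · exact two_ne (by linear_combination -h2)
      · exfalso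
        rw [map_neg] at hz₀g'
        rcases UN.CR2.f1 h hz₀ s0 hp hsp with h2 | h2 <;> rw [h2] at hz₀g'
        · exact one_ne_zero (α := K) (by linear_combination -hz₀g')
        · exact two_ne (by linear_combination -hz₀g')
      · rw [map_sub] at hz₀g' hz₁g'
        have hp1 : B z₀ p = 1 := by
          rcases UN.CR2.f1 h hz₀ s0 hp hsp with h2 | h2
          · exfalso
            rcases UN.CR2.f1 h hz₀ s0 hq hsq with h3 | h3 <;> rw [h2, h3] at hz₀g'
            · exact one_ne_zero (α := K) (by linear_combination -hz₀g')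
            · exact two_ne (by linear_combination -hz₀g')
          · exact h2
        refine ⟨p, hp, hsp, ?_, hp1⟩
        rintro rfl
        rw [hz₁β] at hz₁g'
        rcases UN.CR2.f1 h hz₁ s1 hq hsq with h3 | h3 <;> rw [h3] at hz₁g'
        · exact two_ne (by linear_combination hz₁g')
        · exact one_ne_zero (α := K) (by linear_combination hz₁g')
    obtain ⟨e, he, hse, heβ, hze⟩ := hex
    have hea : e ≠ a := by
      rintro rfl
      rw [hze] at v
      exact one_ne_zero v
    have heb : e ≠ b := by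
      rintro rfl
      rw [hze] at e0
      exact one_ne_zero e0
    have hBea := hadj e he a ha hse hsa hea
    have hBeb := hadj e he b hb hse hsb heb
    have hBeβ := hadj e he β hβ hse hsβ heβ
    have hr : e - a ∈ Φ := h.sub e he a ha hBea
    have hz2 : z₀ - (e - a) ∈ X := h.xsub z₀ hz₀ _ hr (by rw [map_sub, hze, v, sub_zero])
    have h1 := hcon _ hz2 (by
      simp only [map_sub, LinearMap.sub_apply, hz₀β, hBeβ, hBaβ]
      norm_num)
    simp only [map_sub, LinearMap.sub_apply, v, e0, hBea, hBeb, h.two a ha, hBab] at h1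
    exact one_ne_zero (α := K) (by linear_combination h1)
  · -- both values are one
    rw [v, sub_eq_zero] at e0
    have e0 : B z₀ b = 1 := e0.symm
    have hex : ∃ e ∈ Φ, s e = 1 ∧ B z₀ e = 0 := by
      rcases h.root_cases hg' with h1 | ⟨p, hp, hsp, rfl⟩ | ⟨p, hp, q, hq, hsp, hsq, hpq, rfl⟩
      · exfalso
        rcases UN.CR2.f1 h hz₁ s1 hg' h1 with h2 | h2 <;> rw [hz₁g'] at h2
        · exact n1 h2
        · exact two_ne (by linear_combination -h2)
      · exfalso
        rw [map_neg] at hz₀g'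
        rcases UN.CR2.f1 h hz₀ s0 hp hsp with h2 | h2 <;> rw [h2] at hz₀g'
        · exact one_ne_zero (α := K) (by linear_combination -hz₀g')
        · exact two_ne (by linear_combination -hz₀g')
      · rw [map_sub] at hz₀g'
        refine ⟨q, hq, hsq, ?_⟩
        rcases UN.CR2.f1 h hz₀ s0 hq hsq with h3 | h3
        · exact h3
        · exfalso
          rcases UN.CR2.f1 h hz₀ s0 hp hsp with h2 | h2 <;> rw [h2, h3] at hz₀g'
          · exact two_ne (by linear_combination -hz₀g')
          · exact one_ne_zero (α := K) (by linear_combination -hz₀g')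
    obtain ⟨e, he, hse, hze⟩ := hex
    have hae : a ≠ e := by
      rintro rfl
      rw [hze] at v
      exact zero_ne_one v
    have hbe : b ≠ e := by
      rintro rfl
      rw [hze] at e0
      exact zero_ne_one e0
    have heβ : e ≠ β := by
      rintro rfl
      rw [hze] at hz₀β
      exact zero_ne_one hz₀β
    have hBae := hadj a ha e he hsa hse hae
    have hBeb : B e b = 1 := by rw [h.symm]; exact hadj b hb e he hsb hse hbe
    have hBea : B e a = 1 := by rw [h.symm, hBae]
    have hBeβ := hadj e he β hβ hse hsβ heβ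
    have hr : a - e ∈ Φ := h.sub a ha e he hBae
    have hz2 : z₀ - (a - e) ∈ X := h.xsub z₀ hz₀ _ hr (by rw [map_sub, hze, v, sub_zero])
    have h1 := hcon _ hz2 (by
      simp only [map_sub, LinearMap.sub_apply, hz₀β, hBeβ, hBaβ]
      norm_num)
    simp only [map_sub, LinearMap.sub_apply, v, e0, hBea, hBeb, h.two a ha, hBab] at h1
    exact one_ne_zero (α := K) (by linear_combination -h1)

end CX

open Classical in
/-- CN: nontriviality. -/
theorem nontriv (h : USL B s c Φ X) {β g : M} (hβ : β ∈ Φ) (hsβ : s β = 1)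
    (h3 : 3 ≤ (X.filter (fun x => B x β = 1)).card) (hg : g ∈ Φ) (sg : s g = 0)
    (hβg : B β g = 0) : ∃ z ∈ X, B z β = 1 ∧ B z g ≠ 0 := by
  by_contra hcon
  push Not at hcon
  -- two different weights
  obtain ⟨x, hxF, -⟩ := CX.exists_two _ (show 2 ≤ (X.filter (fun x => B x β = 1)).card by omega) 0
  obtain ⟨y, hyF, hyx⟩ := CX.exists_two _
    (show 2 ≤ (X.filter (fun x => B x β = 1)).card by omega) x
  obtain ⟨hx, hxβ⟩ := Finset.mem_filter.1 hxF
  obtain ⟨hy, hyβ⟩ := Finset.mem_filter.1 hyF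
  by_cases hadj : ∀ a ∈ Φ, ∀ b ∈ Φ, s a = 1 → s b = 1 → a ≠ b → B a b = 1
  · exact CX.nontriv_adj h hadj hβ hsβ hx hy (Ne.symm hyx) hxβ hyβ hg sg hβg hcon
  · push Not at hadj
    obtain ⟨a, ha, b, hb, hsa, hsb, hab, hne⟩ := hadj
    have hab0 : B a b = 0 := (UN.CR2.f2 h ha hb hsa hsb hab).resolve_right hne
    have hβD := h.conn {a | ∃ α ∈ Φ, s α = 1 ∧ B a α = 0} ⟨a, ha, hsa, b, hb, hsb, hab0⟩ (by
      rintro p hp q hq hsp hsq hpq ⟨α, hα, hsα, hpα⟩
      have hr : p - q ∈ Φ := h.sub p hp q hq hpq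
      refine ⟨α - B α (p - q) • (p - q), CE4.refl_root h hα hr, ?_, ?_⟩
      · rw [map_sub, map_smul, map_sub s p q, hsp, hsq, sub_self, smul_zero, sub_zero, hsα]
      · have hqp : B q p = 1 := by rw [h.symm, hpq]
        simp only [map_sub, map_smul, smul_eq_mul, hqp, h.two q hq, h.symm α p, hpα, h.symm α q]
        ring) β hβ hsβ
    obtain ⟨α, hα, hsα, hβα⟩ := hβD
    rcases h.dich hα hβ hsα hsβ hβα ⟨x, hx, y, hy, Ne.symm hyx, hxβ, hyβ⟩ with h1 | h1
    · rcases h1 g hg hβg hcon with h2 | h2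
      · rw [h2, hsα] at sg
        exact one_ne_zero sg
      · rw [h2, map_neg, hsα, neg_eq_zero] at sg
        exact one_ne_zero sg
    · obtain ⟨g₀, hg₀, hβg₀, hu⟩ := h1
      have h2 := pair_two h hα hβ hsα hsβ hβα ⟨x, hx, y, hy, Ne.symm hyx, hxβ, hyβ⟩ hg₀ hβg₀ hu
      omega

end comb

end OR
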